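import Pool.Agent.U397.TM.Fin

set_option autoImplicit false

/-! # Poles of Igusa's Poincaré series of forms over products of generic matrices

Let `n_0 ≤ n_1 ≤ ⋯` be positive integers, `A_i`, `i < L`, generic matrices of the sizes
`n_i × n_{i+1}` (all entries are different variables, `Var n L`), and for `t < T` let `ℓ_t < L` and
`F_t = ∑_{r,c} y_{t,r,c} (A_0 A_1 ⋯ A_{ℓ_t})_{r,c}`, with further variables `y_{t,r,c}`, separate for
each `t`. Let `f = ∏ t, F_t ^ a_t`, `a_t ≥ 1` (`form`). For `T = 1`, `a = 1`, `ℓ = L - 1` this is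
`f = tr (Y A_0 A_1 ⋯ A_{L-1})`, `Y` a generic `n_L × n_0` matrix: the trace of a product of generic
matrices.

The number of the solutions of `f ≡ 0` modulo `q ^ m` is given by Igusa's zeta function, for EVERY
prime `q`. The zeta function is computed without a resolution of singularities: for fixed matrices
one integrates over the `y`; the integral over the matrices is computed recursively (`Tw3`, `t_ST3`,
`t_PE3`, see `Pool/Agent/U397/TM`). The candidate poles are `-ν(c) / N(c)`, where `c` runs over the
chains `n_0 = c_0 ≥ c_1 ≥ ⋯ ≥ c_L` of possible ranks `c_{i+1}` of `A_0 ⋯ A_i` with some `c_{ℓ_t+1} = 0`,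
`ν(c) = ∑_i (c_i - c_{i+1}) (n_{i+1} - c_{i+1})` is the codimension of the stratum and `N(c)` the sum of
the `a_t` with `c_{ℓ_t+1} = 0`, and `-1 / a_t`. They are roots: near a general point of the stratum of
`c` the ideals of the entries are the ideal of the stratum, which is smooth, or the unit ideal
(`t_RO`), and a functional equation of `f` is compared along the blow-up of the stratum. -/

namespace Pool.Agent.Results.MP_5d9b3c_ag.MatrixProductForms

open Pool.Agent.U397.TM Pool.Agent.H628R4.TP Pool.Agent.W206.CU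

/-- **Igusa's strong monodromy conjecture for the Poincaré series of `f = ∏ t, F_t ^ a t`**, `F_t` the
form with the entries of the product `A_0 ⋯ A_{ℓ t}` of generic matrices as coefficients, for every
prime `q`. `T₀` is a pole of the Poincaré series `∑_m a_m (q ^ (-n) T) ^ m` (of any order `r > 0`),
and `b` any polynomial with `b(s) f ^ s = P(s) f ^ (s + 1)`, for example the Bernstein-Sato
polynomial. -/
theorem result (n : ℕ → ℕ) (h0 : 0 < n 0) (hn : Monotone n) (L T : ℕ) (ℓ a : Fin T → ℕ)
    (hℓ : ∀ t, ℓ t < L) (ha : ∀ t, 0 < a t) (q : ℕ) [Fact q.Prime] (T₀ : ℂ) (r : ℕ) (hr : 0 < r)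
    (h : IsPoleOfOrder (poincare q (form n L ℓ a)) T₀ r) (b : Polynomial ℂ)
    (hb : IsBFunction (MvPolynomial.map (Int.castRingHom ℂ) (form n L ℓ a)) b) :
    b.eval ((-Real.log ‖T₀‖ / Real.log q : ℝ) : ℂ) = 0 :=
  poincare_rootT (t_PE3 t_PP) t_RO h0 hn L ℓ a hℓ ha T₀ r hr h b hb

end Pool.Agent.Results.MP_5d9b3c_ag.MatrixProductForms
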