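import Pool.Agent.U841.PA.Zeta2
import Pool.Agent.U841.PA.Unit

set_option autoImplicit false

/-! # Poles of Igusa's Poincaré series and Bernstein-Sato roots for hypersurfaces whose tangent cones
have normal crossings, for every prime `p`

Let `f t`, `t ∈ T`, be finitely many nonconstant polynomials in `n ≥ 2` variables with integral
coefficients such that
at every point `P ∈ ℂ ^ n` the tangent cones of those hypersurfaces `f t = 0` which contain `P` are smooth
away from the vertex and cross normally there (`ConesCrossAt`: the initial forms of these `f t` at `P`
define smooth hypersurfaces of the projective space `ℙ^(n-1)` which cross normally), let `a t ≥ 1` be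
arbitrary exponents, and let `F = ∏ t, f t ^ a t`. The polynomials `f t` may be reducible, and the
singularities of `F` are in general neither isolated nor reduced nor homogeneous. Examples: the cones
over the normal crossing divisors of `ℙ^(n-1)` and all perturbations of their equations by terms of
higher order, with all multiplicities; hypersurfaces with ordinary multiple points.

The integral is computed for EVERY prime `p`: there is no condition on the reduction modulo `p`.
The Poincaré series `P(T)` and the zeta function `Z(T)` are related by `P(T) (1 - T) = 1 - T Z(T)`.

* Near a point `P ∈ ℤ_p ^ n` at which the hypersurfaces cross normally the `f t` are, up to constants,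
  coordinates after an isometry of `ℤ_p ^ n` (`FR_pt`).
* Let `P` be a point at which they do not cross normally, and let `g t` be the initial form of `f t` at
  `P`. On a small ball with centre `P` the integral is equal to the integral of `∏ t, |g t| ^ (a t s)`
  over the ball, up to the values at `P` of the `f t` which do not vanish there (`cone_comp`): the
  ball is the disjoint union of the spheres of radius `p ^ (-k)` and the centre; after the
  multiplication by `p ^ (-k)` the `f t` on such a sphere are close to the `g t` with their first
  derivatives, and near every point of the sphere the integral depends only on the values at one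
  point and on the position of the gradients, since the gradients of the vanishing `g t` are linearly
  independent (`loc_comp`, `sphere_comp`). The integral of the forms over the ball is expressed by
  `1 / (1 - p ^ (-n) T ^ d)`, where `T = p ^ (-s)` and `d` is the multiplicity of `F` at `P`, and by
  integrals of the first kind (`FR_cone`, `FR_ncP`).
* `ℤ_p ^ n` is a finite disjoint union of such balls (`FR_bis`, a bisection argument and compactness).

So the integral is a rational function of `T`; the real parts of the poles are among the `-1 / a t` and
the `-n/d`, where `d` is the multiplicity of `F` at a point at which the hypersurfaces do not cross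
normally (`FR_glob`). It is proved that all these numbers are roots of `b`.

The main point is that `-n/d` is a root of the Bernstein-Sato polynomial. Outline of the proof
(`pt_exc` in `Pool.Agent.U841.SN.Assem`). Let `P = 0`, and let `G = ∏ t, g t ^ a t` be the initial form of
`F`. The component of degree `d s` of the functional equation `b(s) F ^ s = P(s) F ^ (s + 1)` says
that `b(s) G ^ s` is a sum of derivatives of elements of degree `d s + 1` of `ℂ[s][x, 1/G] G ^ s`
(`ext_point_t`). Let `b(-n/d) ≠ 0`. For `s = -n/d` it follows that the twisted form `G ^ (-n/d) ω` on the
complement of the hypersurfaces `g t = 0` of `ℙ^(n-1)` is the differential of a form with poles. By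
the trick of Cayley, twisted forms with poles along the hypersurfaces `g_t = 0`, `t = 0, …, r`, become
cohomology classes of the twisted de Rham complex of the function `∑_t y_t g_t` in the variables
`x_j` and `y_t`, whose symbol complex is the Koszul complex on the `n + r` elements `∑_t y_t ∂_j g_t` and
`y_t g_t`, `t ≥ 1`. By the normal crossings these elements generate an ideal which contains a power of
the product of the ideals `(x_j)` and `(y_t)`. The first homology of the Koszul complex vanishes in
the bidegrees which occur (`H1_NC`). Therefore the order of the poles can be lowered (`reduce`), and
at the end one gets a linear vector field `v` with `v(g_t) = c_t g_t` for all `t`, where `c_0 = 0`, and a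
relation between `div v` and the `c_t`; this leads to a contradiction if `g_0` has degree `≥ 2` (`alg`), or
if all the `g_t` are linear and `r ≥ n` (`alg2`); in the remaining cases the hypersurfaces cross
normally at `P` (`cond_of_not_cross`). The roots `-1 / a t` come from general points of the
hypersurfaces `f t = 0` (`pt_str`). -/

namespace Pool.Agent.Results.MP_5d9b3c_ag.NormalCrossingTangentCones

open MvPolynomial Pool.Agent.W427.SMC Pool.Agent.U841.SN Pool.Agent.U841.PA
open Pool.Agent.H628R4.TP (IsBFunction)

/-- **Denef's question for products of powers of polynomials whose tangent cones have normal crossings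
and every prime `p`.** Let `b` satisfy a functional equation `b(s) F ^ s = P(s) F ^ (s + 1)` with `P(s)` in
the Weyl algebra (for example the Bernstein-Sato polynomial of `F = ∏ t, f t ^ a t`). Then the Poincaré
series of `F` is the expansion at `0` of a rational function `Φ`, and for every pole `T₀` of `Φ`, that is,
for every root `T₀` of the reduced denominator of `Φ`, the number `t₀ = -log |T₀| / log p` is a root
of `b`. -/
theorem result (p : ℕ) [Fact p.Prime] {n : ℕ} {T : Type} [Fintype T] (hn : 2 ≤ n)
    (f : T → MvPolynomial (Fin n) ℤ) (hu : ∀ t, (f t).totalDegree ≠ 0)
    (hcone : ∀ P : Fin n → ℂ, ConesCrossAt (fun t => map (Int.castRingHom ℂ) (f t)) P)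
    (a : T → ℕ) (ha : ∀ t, 0 < a t) (b : Polynomial ℂ)
    (hb : IsBFunction (map (Int.castRingHom ℂ) (∏ t, f t ^ a t)) b) :
    ∃ Φ : RatFunc ℂ, ((Φ.denom : Polynomial ℂ) : PowerSeries ℂ) * poincare p (∏ t, f t ^ a t) =
        ((Φ.num : Polynomial ℂ) : PowerSeries ℂ) ∧
      ∀ T₀ : ℂ, Φ.denom.eval T₀ = 0 →
        b.eval ((-Real.log ‖T₀‖ / Real.log p : ℝ) : ℂ) = 0 :=
  tc_poin hn f (fun t => not_unit_map _ (RingHom.injective_int _) _ (hu t)) hcone a ha b hb

end Pool.Agent.Results.MP_5d9b3c_ag.NormalCrossingTangentCones
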