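import Pool.Agent.U334.TC.Main

set_option autoImplicit false

/-! # The poles of Igusa's Poincare series, every prime: ternary forms with weighted homogeneous
singularities, semi-invariant cones, and their closure

See `Pool/Agent/U334/TC/Defs.lean` for the class `PTW false false`. It contains all forms of degree
`d > 0` in three variables such that the plane projective curve `f = 0` (reducible and non-reduced
curves are allowed) has only weighted homogeneous singularities; all nonzero forms in three
variables for which there is a linear vector field `v` of trace zero with `v(f) = f`; and it is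
closed under the operations of the class of the starting result `ThomSebastianiSums`, under
semi-invariant cones, powers, and products of powers of universal linear combinations.

The number of solutions of `F = 0` modulo `p ^ m` is determined by the volumes of the sets
`|F| ≤ p ^ (-m)`, and the Poincare series by the integral of `|F| ^ s`. The new point is that the
candidate pole `T_0 ^ d = p ^ 3` of a form with a vector field as above is not a pole, see
`stab_RE` in `Pool/Agent/U334/TC/Lat.lean` and `split_matrix` in `Pool/Agent/U334/TC/Alg.lean`. -/

namespace Pool.Agent.Results.MP_5d9b3c_ag.TernaryClosure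

open MvPolynomial Pool.Agent.W427.SMC Pool.Agent.H628R4.TP Pool.Agent.U334.TC
open Pool.Agent.U184 (WHForm)

/-- Denef's question for `F` and every prime `p`: let `b` be a polynomial with
`b(s) F ^ s = P(s) F ^ (s + 1)`; then Igusa's Poincare series of `F` is the expansion of a rational
function `Φ`, and `-log |T₀| / log p` is a root of `b` for all poles `T₀` of `Φ`. -/
def Denef {V : Type} [Fintype V] (F : MvPolynomial V ℤ) : Prop :=
  ∀ (p : ℕ) [Fact p.Prime] (b : Polynomial ℂ), IsBFunction (map (Int.castRingHom ℂ) F) b →
    ∃ Φ : RatFunc ℂ, ((Φ.denom : Polynomial ℂ) : PowerSeries ℂ) * poincare p F =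
        ((Φ.num : Polynomial ℂ) : PowerSeries ℂ) ∧
      ∀ T₀ : ℂ, Φ.denom.eval T₀ = 0 → b.eval ((-Real.log ‖T₀‖ / Real.log p : ℝ) : ℂ) = 0

/-- **The poles of Igusa's Poincare series**, (1) for all forms `F` of degree `d > 0` in three
variables with weighted homogeneous singularities, (2) for all polynomials `F` with integer
coefficients in any number of variables such that the ideal `(F)` of `ℚ[x]` is in the class
`PTW false false`. -/
theorem result :
    (∀ (F : MvPolynomial (Fin 3) ℤ) (d : ℕ),
      WHForm (map (algebraMap ℚ ℂ) (map (Int.castRingHom ℚ) F)) d → Denef F) ∧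
    (∀ (V : Type) [Fintype V] (F : MvPolynomial V ℤ),
      PTW false false ⟨V, Fin 1, fun _ => map (Int.castRingHom ℚ) F⟩ → Denef F) := by
  have h2 : ∀ (V : Type) [Fintype V] (F : MvPolynomial V ℤ),
      PTW false false ⟨V, Fin 1, fun _ => map (Int.castRingHom ℚ) F⟩ → Denef F :=
    fun V _ F hF p _ b hb => poin_R F hF b hb
  refine ⟨fun F d hw => h2 (Fin 3) F ?_, h2⟩
  exact PTW.good _ (GoodW.tern d _ hw fun h => absurd h Bool.false_ne_true)

end Pool.Agent.Results.MP_5d9b3c_ag.TernaryClosure
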