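import Pool.Agent.U184.Padic

set_option autoImplicit false

/-! # Poles of Igusa's Poincare series of homogeneous polynomials in three variables with
weighted homogeneous singularities, for every prime `p`

Let `f` be a homogeneous polynomial of degree `d > 0` in three variables, which may be reducible and
non-reduced. The candidate poles of its zeta function come from the divisors over the points of
the plane projective curve `f = 0`, and from the exceptional divisor `P²` of the blow-up of the
origin, which gives the candidate `-3/d`. This file treats all poles with `t₀ ≠` `-3/d`, and also `-3/d`, if

* the curve `f = 0` has only weighted homogeneous singularities: at each singular point of the reduced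
  curve, `f` is, in suitable formal coordinates, a weighted homogeneous polynomial (`WHForm`). For
  instance `f = ∏ f_i ^ (m_i)` with arbitrary multiplicities `m_i`, where the reduced curve
  `∏ f_i = 0` has only simple singularities, ordinary multiple points of multiplicity at most 4,
  or other quasi-homogeneous singularities; and
* there is no linear vector field `v` of trace zero with `v(f) = f` (`NoField`). If there is one, then `f`
  is semi-invariant, with a nontrivial character, for a one-dimensional torus in `SL₃`: after a
  linear change of coordinates, the exponents of the monomials of `f` lie on a line which does not
  contain `(d/3, d/3, d/3)` (for example `f = x^a y^b z^c` or `f = x^5 + y^4 z`). For these `f`, `-3/d` is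
  in general not a root of the Bernstein-Sato polynomial. It should not be a pole either, but this
  is not proved here.

The main point is the following: if `b(-3/d) ≠ 0` and the singularities are weighted homogeneous, then
there is such a vector field `v` (`core` in `Pool.Agent.U184.Core`). The functional equation shows
that on the complement of the curve the twisted form `f ^ (-3/d) (x dy dz - y dx dz + z dx dy)` is
the differential of a form with poles of some order along the curve. The order of the poles is
lowered step by step. Locally at a weighted homogeneous singularity this is a computation with the
Euler vector field; the functional equation at the points of the curve is used in order to treat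
the degrees in which the twisted Euler field has no inverse; the global step uses the exactness of
the Koszul complex of `x, y, z`. At the end there is a form with poles of order one, which is given
by a linear vector field `v` with `v(f) = f` and trace zero.

The other poles are treated with the library (`Pool.Agent.Y230`): the integral over `ℤ_p ^ 3` is
expressed by integrals over the charts `x_i = 1` and `1 / (1 - p⁻³ T ^ d)`, `T = p ^ (-s)` (`FR_cone`), and
the integrals over the charts are rational functions of `T` whose poles have orders at most the
multiplicities of the roots of `b` (`reg_ZI`). There is no condition on the reduction modulo `p`. -/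

namespace Pool.Agent.Results.MP_5d9b3c_ag.TernaryForms

open MvPolynomial Pool.Agent.U184 Pool.Agent.W427.SMC
open Pool.Agent.H628R4.TP (IsBFunction)

/-- **Denef's question for forms in three variables with weighted homogeneous singularities and
every prime `p`.** Let `F ≠ 0` be a homogeneous polynomial of degree `d > 0` in three variables with
integral coefficients, and let `b ≠ 0` be a polynomial which satisfies a functional equation
`b(s) F ^ s = P(s) F ^ (s + 1)` (for instance `b = b_F`). Then the Poincare series of `F` is the
expansion at `0` of a rational function `Φ`, and for every pole `T₀` of `Φ`, that is, for every root
`T₀` of the reduced denominator of `Φ`, the number `t₀ = -log |T₀| / log p` is a root of `b`; if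
`t₀ = -3/d`, we assume here that the plane curve `F = 0` (possibly not reduced) has only weighted
homogeneous singularities (`WHForm`) and that there is no linear vector field `v` of trace zero with
`v(F) = F` (`NoField`). -/
theorem result (F : MvPolynomial (Fin 3) ℤ) (d : ℕ) (hd : 0 < d) (hF : F.IsHomogeneous d)
    (hF0 : F ≠ 0) (p : ℕ) [Fact p.Prime] (b : Polynomial ℂ) (hb0 : b ≠ 0)
    (hb : IsBFunction (map (Int.castRingHom ℂ) F) b) :
    ∃ Φ : RatFunc ℂ, ((Φ.denom : Polynomial ℂ) : PowerSeries ℂ) * poincare p F =
        ((Φ.num : Polynomial ℂ) : PowerSeries ℂ) ∧
      ∀ T₀ : ℂ, Φ.denom.eval T₀ = 0 →
        (-Real.log ‖T₀‖ / Real.log p ≠ -3 / d ∨ (WHForm (map (Int.castRingHom ℂ) F) d ∧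
          NoField (map (Int.castRingHom ℂ) F))) →
        b.eval ((-Real.log ‖T₀‖ / Real.log p : ℝ) : ℂ) = 0 :=
  poin_tern F d hd hF hF0 b hb0 hb

end Pool.Agent.Results.MP_5d9b3c_ag.TernaryForms
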